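import Pool.Agent.H34D.Cover
import Pool.Agent.Y384.DM.Basic

/-!
# The number of edges and the cost of a cover
-/

set_option autoImplicit false

namespace Pool.Agent.H34D

open Finset SimpleGraph Pool.Agent.Y384.EC

section

variable {V : Type*} [Fintype V] [DecidableEq V] {G : SimpleGraph V} {ρ : V → ℕ}
  {X : V → Finset V} {c : V → V → V} {L : ℕ}

open Classical in
/-- The pairs on level `j`. -/
noncomputable def levS (G : SimpleGraph V) (ρ : V → ℕ) (X : V → Finset V) (c : V → V → V) (L j : ℕ) :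
    Finset (V × V) :=
  univ.filter (fun p => Lev G ρ X c L j p.1 p.2)

theorem mem_levS {j : ℕ} {p : V × V} : p ∈ levS G ρ X c L j ↔ Lev G ρ X c L j p.1 p.2 := by
  classical
  unfold levS
  rw [mem_filter]
  simp only [mem_univ, true_and]

open Classical in
/-- The later neighbours of `v` which are not in `X v` and not adjacent to a vertex in `X v`. -/
noncomputable def exc (G : SimpleGraph V) (ρ : V → ℕ) (X : V → Finset V) (v : V) : Finset V :=
  univ.filter (fun w => ρ v < ρ w ∧ G.Adj v w ∧ w ∉ X v ∧ ∀ x ∈ X v, ¬ G.Adj x w)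

theorem mem_exc {v w : V} :
    w ∈ exc G ρ X v ↔ ρ v < ρ w ∧ G.Adj v w ∧ w ∉ X v ∧ ∀ x ∈ X v, ¬ G.Adj x w := by
  classical
  unfold exc
  rw [mem_filter]
  simp only [mem_univ, true_and]

theorem lev_zero_card (hc : ∀ v w, (∃ x ∈ X v, G.Adj x w) → c v w ∈ X v ∧ G.Adj (c v w) w) :
    (levS G ρ X c L 0).card ≤ (L + 1) * ∑ v, ((X v).card + (exc G ρ X v).card) := by
  classical
  have h1 : levS G ρ X c L 0 ⊆ univ.biUnion (fun v =>
      (X v ∪ exc G ρ X v ∪ (X v).biUnion (fun x =>
        if (cell G ρ c v x).card ≤ L then cell G ρ c v x else ∅)).image (fun w => (v, w))) := by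
    rintro ⟨v, w⟩ hp
    rw [mem_levS] at hp
    obtain ⟨hvw, hlt, hH⟩ := hp
    refine mem_biUnion.2 ⟨v, mem_univ _, mem_image.2 ⟨w, ?_, rfl⟩⟩
    simp only at hvw hlt hH
    by_cases h2 : w ∈ X v
    · exact mem_union_left _ (mem_union_left _ h2)
    · by_cases h3 : ∃ x ∈ X v, G.Adj x w
      · obtain ⟨h4, h5⟩ := hc v w h3
        refine mem_union_right _ (mem_biUnion.2 ⟨c v w, h4, ?_⟩)
        have h6 : (cell G ρ c v (c v w)).card ≤ L := by
          by_contra h7
          exact hH ⟨hvw, hlt, h4, h5, by omega⟩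
        rw [if_pos h6]
        exact mem_cell.2 ⟨hvw, hlt, h5, rfl⟩
      · push Not at h3
        exact mem_union_left _ (mem_union_right _ (mem_exc.2 ⟨hlt, hvw, h2, h3⟩))
  refine (card_le_card h1).trans (card_biUnion_le.trans ?_)
  rw [mul_sum]
  refine sum_le_sum fun v _ => card_image_le.trans ?_
  have h2 := card_union_le (X v ∪ exc G ρ X v) ((X v).biUnion (fun x =>
        if (cell G ρ c v x).card ≤ L then cell G ρ c v x else ∅))
  have h3 := card_union_le (X v) (exc G ρ X v)
  have h4 : ((X v).biUnion (fun x =>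
        if (cell G ρ c v x).card ≤ L then cell G ρ c v x else ∅)).card ≤ (X v).card * L := by
    refine card_biUnion_le.trans ((sum_le_card_nsmul _ _ L fun x _ => ?_).trans ?_)
    · split_ifs with h
      · exact h
      · rw [card_empty]
        exact Nat.zero_le _
    · rw [smul_eq_mul]
  have h5 : (L + 1) * ((X v).card + (exc G ρ X v).card) =
    (X v).card * L + (X v).card + (L * (exc G ρ X v).card + (exc G ρ X v).card) := by ring
  have h6 := Nat.zero_le (L * (exc G ρ X v).card)
  omega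

theorem lev_succ_card {k : ℕ} (hk : 2 ≤ k) (hG : (cycleGraph (2 * k)).Free G) (j : ℕ) :
    (levS G ρ X c L (j + 1)).card ≤
      BB k * (∑ v, (X v).card + 2 * (levS G ρ X c L j).card) := by
  classical
  have h1 : levS G ρ X c L (j + 1) ⊆ univ.biUnion (fun q =>
      (levS G ρ X c L (j + 1)).filter (fun p => c p.1 p.2 = q)) := by
    intro p hp
    exact mem_biUnion.2 ⟨c p.1 p.2, mem_univ _, mem_filter.2 ⟨hp, rfl⟩⟩
  have h2 : ∀ q : V, ((levS G ρ X c L (j + 1)).filter (fun p => c p.1 p.2 = q)).card ≤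
      BB k * ((univ.filter (fun v => q ∈ X v)).card +
        ((((levS G ρ X c L j).filter (fun p => p.1 = q)).image Prod.snd ∪
          ((levS G ρ X c L j).filter (fun p => p.2 = q)).image Prod.fst).card)) := by
    intro q
    refine near hk hG q _ _ _ ?_ ?_
    · rintro ⟨v, w⟩ hp
      obtain ⟨hp, hq⟩ := mem_filter.1 hp
      rw [mem_levS] at hp
      obtain ⟨hH, hl⟩ := hp
      simp only at hq hH hl
      subst hq
      refine ⟨hH.1, mem_filter.2 ⟨mem_univ _, hH.2.2.1⟩, ?_⟩
      rcases hl with hl | hl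
      · exact mem_union_left _ (mem_image.2 ⟨(c v w, w), mem_filter.2 ⟨mem_levS.2 hl, rfl⟩, rfl⟩)
      · exact mem_union_right _ (mem_image.2 ⟨(w, c v w), mem_filter.2 ⟨mem_levS.2 hl, rfl⟩, rfl⟩)
    · intro w hw
      rcases mem_union.1 hw with hw | hw
      · obtain ⟨⟨a, b⟩, hab, rfl⟩ := mem_image.1 hw
        obtain ⟨hl, hq⟩ := mem_filter.1 hab
        rw [mem_levS] at hl
        simp only at hq
        rw [← hq]
        exact hl.adj.symm
      · obtain ⟨⟨a, b⟩, hab, rfl⟩ := mem_image.1 hw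
        obtain ⟨hl, hq⟩ := mem_filter.1 hab
        rw [mem_levS] at hl
        simp only at hq
        rw [← hq]
        exact hl.adj
  refine (card_le_card h1).trans (card_biUnion_le.trans ((sum_le_sum fun q _ => h2 q).trans ?_))
  rw [← mul_sum, sum_add_distrib]
  refine Nat.mul_le_mul_left _ (Nat.add_le_add ?_ ?_)
  · simp only [card_filter]
    rw [sum_comm]
    refine sum_le_sum fun v _ => ?_
    rw [← card_filter]
    refine card_le_card fun x hx => ?_
    simpa using hx
  · have e1 : ∑ q : V, ((levS G ρ X c L j).filter (fun p => p.1 = q)).card =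
        (levS G ρ X c L j).card :=
      (card_eq_sum_card_fiberwise (f := Prod.fst) (t := (univ : Finset V))
        (fun v _ => mem_coe.2 (mem_univ _))).symm
    have e2 : ∑ q : V, ((levS G ρ X c L j).filter (fun p => p.2 = q)).card =
        (levS G ρ X c L j).card :=
      (card_eq_sum_card_fiberwise (f := Prod.snd) (t := (univ : Finset V))
        (fun v _ => mem_coe.2 (mem_univ _))).symm
    rw [two_mul]
    nth_rewrite 2 [← e1]
    rw [← e2, ← sum_add_distrib]
    refine sum_le_sum fun q _ => (card_union_le _ _).trans ?_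
    have h3 := card_image_le (s := (levS G ρ X c L j).filter (fun p => p.1 = q)) (f := Prod.snd)
    have h4 := card_image_le (s := (levS G ρ X c L j).filter (fun p => p.2 = q)) (f := Prod.fst)
    omega

theorem lev_card {k : ℕ} (hk : 2 ≤ k) (hG : (cycleGraph (2 * k)).Free G)
    (hc : ∀ v w, (∃ x ∈ X v, G.Adj x w) → c v w ∈ X v ∧ G.Adj (c v w) w) (j : ℕ) :
    (levS G ρ X c L j).card ≤
      (L + 1) * (3 * BB k) ^ j * ∑ v, ((X v).card + (exc G ρ X v).card) := by
  induction j with
  | zero =>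
    rw [pow_zero, mul_one]
    exact lev_zero_card hc
  | succ j ih =>
    refine (lev_succ_card hk hG j).trans ?_
    have h1 : ∑ v, (X v).card ≤ ∑ v, ((X v).card + (exc G ρ X v).card) :=
      sum_le_sum fun v _ => Nat.le_add_right _ _
    set S := ∑ v, ((X v).card + (exc G ρ X v).card) with hS
    have h2 : 1 ≤ (L + 1) * (3 * BB k) ^ j :=
      Nat.mul_pos (by omega) (Nat.pow_pos (by have := BB_pos k; omega))
    have h3 : S ≤ (L + 1) * (3 * BB k) ^ j * S := Nat.le_mul_of_pos_left _ h2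
    calc BB k * (∑ v, (X v).card + 2 * (levS G ρ X c L j).card)
        ≤ BB k * ((L + 1) * (3 * BB k) ^ j * S + 2 * ((L + 1) * (3 * BB k) ^ j * S)) :=
          Nat.mul_le_mul_left _ (Nat.add_le_add (h1.trans h3) (Nat.mul_le_mul_left _ ih))
      _ = (L + 1) * (3 * BB k) ^ (j + 1) * S := by ring

end

/-- The constant. -/
def CK (k : ℕ) : ℕ := k * ((3 * k + 1) * (3 * BB k) ^ k)

/-- The number of edges is at most a constant times the cost of the cover. -/
theorem cover_bound {V : Type*} [Fintype V] [DecidableEq V] {G : SimpleGraph V} {k : ℕ}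
    (hk : 2 ≤ k) (hG : (cycleGraph (2 * k)).Free G) {ρ : V → ℕ} (hρ : Function.Injective ρ)
    {X : V → Finset V} (hX : ∀ v, ∀ x ∈ X v, ρ v < ρ x) :
    {p : V × V | G.Adj p.1 p.2 ∧ ρ p.1 < ρ p.2}.ncard ≤
      CK k * ∑ v, ((X v).card + (exc G ρ X v).card) := by
  classical
  obtain ⟨c, hc⟩ : ∃ c : V → V → V, ∀ v w, (∃ x ∈ X v, G.Adj x w) →
      c v w ∈ X v ∧ G.Adj (c v w) w := by
    have h : ∀ v w, ∃ x, (∃ x ∈ X v, G.Adj x w) → x ∈ X v ∧ G.Adj x w := by
      intro v w
      by_cases h : ∃ x ∈ X v, G.Adj x w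
      · obtain ⟨x, hx⟩ := h
        exact ⟨x, fun _ => hx⟩
      · exact ⟨v, fun h' => absurd h' h⟩
    choose c hc using h
    exact ⟨c, hc⟩
  have h1 : {p : V × V | G.Adj p.1 p.2 ∧ ρ p.1 < ρ p.2}.toFinset ⊆
      (range (k - 1)).biUnion (fun j => levS G ρ X c (3 * k) j) := by
    rintro ⟨v, w⟩ hp
    rw [Set.mem_toFinset] at hp
    obtain ⟨hvw, hlt⟩ := hp
    rcases deep_or_lev (X := X) (c := c) (L := 3 * k) hρ (k - 1) v w hvw hlt with h | ⟨j, hj, h⟩
    · exact absurd h (not_deep hk hG hX le_rfl v w hvw)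
    · exact mem_biUnion.2 ⟨j, mem_range.2 hj, mem_levS.2 h⟩
  rw [Set.ncard_eq_toFinset_card']
  refine (card_le_card h1).trans (card_biUnion_le.trans ?_)
  refine (sum_le_card_nsmul _ _ ((3 * k + 1) * (3 * BB k) ^ k *
    ∑ v, ((X v).card + (exc G ρ X v).card)) ?_).trans ?_
  · intro j hj
    have hj' := mem_range.1 hj
    refine (lev_card hk hG hc j).trans (Nat.mul_le_mul_right _ (Nat.mul_le_mul_left _
      (Nat.pow_le_pow_right (by have := BB_pos k; omega) (by omega))))
  · rw [card_range, smul_eq_mul]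
    unfold CK
    rw [mul_assoc k]
    exact Nat.mul_le_mul_right _ (by omega)

theorem edges_le {V : Type*} [Fintype V] (G : SimpleGraph V) {ρ : V → ℕ}
    (hρ : Function.Injective ρ) :
    G.edgeSet.ncard ≤ {p : V × V | G.Adj p.1 p.2 ∧ ρ p.1 < ρ p.2}.ncard := by
  classical
  have hfin : {p : V × V | G.Adj p.1 p.2 ∧ ρ p.1 < ρ p.2}.Finite := Set.toFinite _
  have h1 : G.edgeSet ⊆ (fun p : V × V => s(p.1, p.2)) ''
      {p : V × V | G.Adj p.1 p.2 ∧ ρ p.1 < ρ p.2} := by
    intro e he
    induction e using Sym2.ind with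
    | _ a b =>
      have hab : G.Adj a b := he
      rcases lt_trichotomy (ρ a) (ρ b) with h | h | h
      · exact ⟨(a, b), ⟨hab, h⟩, rfl⟩
      · exact absurd (hρ h) hab.ne
      · exact ⟨(b, a), ⟨hab.symm, h⟩, Sym2.eq_swap⟩
  exact (Set.ncard_le_ncard h1 (hfin.image _)).trans (Set.ncard_image_le hfin)

end Pool.Agent.H34D
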