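import Pool.Agent.Y384.EC.Fan

/-!
# Covering later neighbourhoods by other neighbourhoods
-/

set_option autoImplicit false

namespace Pool.Agent.H34D

open Finset SimpleGraph Pool.Agent.Y384.EC

/-- Edges with an end in the neighbourhood of `q`. -/
theorem near {V : Type*} [Fintype V] [DecidableEq V] {k : ℕ} (hk : 2 ≤ k) {G : SimpleGraph V}
    (hG : (cycleGraph (2 * k)).Free G) (q : V) (E : Finset (V × V)) (U F : Finset V)
    (hE : ∀ p ∈ E, G.Adj p.1 p.2 ∧ p.1 ∈ U ∧ p.2 ∈ F) (hF : ∀ v ∈ F, G.Adj v q) :
    E.card ≤ BB k * (U.card + F.card) := by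
  have h := fan k G hG 1 (by omega) q (fun v i => if i = 0 then v else q) E U F hE (by
    intro v hv
    have hvq := hF v hv
    refine ⟨⟨?_, ?_⟩, ?_, ?_⟩
    · intro i hi
      have hi0 : i = 0 := by omega
      subst hi0
      simpa using hvq
    · intro i hi j hj hij
      have hi' : i = 0 ∨ i = 1 := by omega
      have hj' : j = 0 ∨ j = 1 := by omega
      rcases hi' with rfl | rfl <;> rcases hj' with rfl | rfl
      · rfl
      · simp only [if_true, one_ne_zero, if_false] at hij
        exact absurd hij hvq.ne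
      · simp only [if_true, one_ne_zero, if_false] at hij
        exact absurd hij.symm hvq.ne
      · rfl
    · simp
    · simp)
  simpa using h

section

variable {V : Type*} [Fintype V] [DecidableEq V] (G : SimpleGraph V) (ρ : V → ℕ)
  (X : V → Finset V) (c : V → V → V) (L : ℕ)

open Classical in
/-- The later neighbours of `v` for which `x` is the chosen vertex. -/
noncomputable def cell (v x : V) : Finset V :=
  univ.filter (fun u => G.Adj v u ∧ ρ v < ρ u ∧ G.Adj x u ∧ c v u = x)

/-- `w` is a later neighbour of `v`, and more than `L` later neighbours of `v` have the same chosen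
vertex as `w`. -/
def Heavy (v w : V) : Prop :=
  G.Adj v w ∧ ρ v < ρ w ∧ c v w ∈ X v ∧ G.Adj (c v w) w ∧ L < (cell G ρ c v (c v w)).card

/-- After `j` steps one gets to an edge which is not heavy. -/
def Lev : ℕ → V → V → Prop
  | 0, v, w => G.Adj v w ∧ ρ v < ρ w ∧ ¬ Heavy G ρ X c L v w
  | j + 1, v, w => Heavy G ρ X c L v w ∧ (Lev j (c v w) w ∨ Lev j w (c v w))

/-- The first `t` edges are heavy. -/
def Deep : ℕ → V → V → Prop
  | 0, v, w => G.Adj v w
  | t + 1, v, w => Heavy G ρ X c L v w ∧ (Deep t (c v w) w ∨ Deep t w (c v w))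

variable {G ρ X c L}

theorem mem_cell {v x u : V} :
    u ∈ cell G ρ c v x ↔ G.Adj v u ∧ ρ v < ρ u ∧ G.Adj x u ∧ c v u = x := by
  classical
  unfold cell
  rw [mem_filter]
  simp only [mem_univ, true_and]

theorem Lev.adj : ∀ {j : ℕ} {v w : V}, Lev G ρ X c L j v w → G.Adj v w
  | 0, _, _, h => h.1
  | _ + 1, _, _, h => h.1.1

theorem deep_or_lev (hρ : Function.Injective ρ) : ∀ (t : ℕ) (v w : V), G.Adj v w → ρ v < ρ w →
    Deep G ρ X c L t v w ∨ ∃ j < t, Lev G ρ X c L j v w := by
  intro t
  induction t with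
  | zero =>
    intro v w h _
    exact Or.inl h
  | succ t ih =>
    intro v w h hlt
    by_cases hH : Heavy G ρ X c L v w
    · have hx := hH.2.2.2.1
      rcases lt_trichotomy (ρ (c v w)) (ρ w) with h1 | h1 | h1
      · rcases ih _ _ hx h1 with h2 | ⟨j, hj, h2⟩
        · exact Or.inl ⟨hH, Or.inl h2⟩
        · exact Or.inr ⟨j + 1, by omega, hH, Or.inl h2⟩
      · exact absurd (hρ h1) hx.ne
      · rcases ih _ _ hx.symm h1 with h2 | ⟨j, hj, h2⟩
        · exact Or.inl ⟨hH, Or.inr h2⟩
        · exact Or.inr ⟨j + 1, by omega, hH, Or.inr h2⟩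
    · exact Or.inr ⟨0, by omega, h, hlt, hH⟩

/-- A path of length `2 t + 1` between the ends. -/
theorem path_of_deep (hX : ∀ v, ∀ x ∈ X v, ρ v < ρ x) : ∀ (t : ℕ) (v w : V),
    Deep G ρ X c L t v w → ∀ F : Finset V, (∀ z ∈ F, ρ z < ρ v ∧ ρ z < ρ w) →
    F.card + 3 * t ≤ L →
    ∃ f : ℕ → V, Seq G f (2 * t + 2) ∧ f 0 = v ∧ f (2 * t + 1) = w ∧
      ∀ i < 2 * t + 2, f i ∉ F := by
  intro t
  induction t with
  | zero =>
    intro v w h F hF _
    have h : G.Adj v w := h
    refine ⟨fun i => if i = 0 then v else w, ⟨?_, ?_⟩, by simp, by simp, ?_⟩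
    · intro i hi
      have hi0 : i = 0 := by omega
      subst hi0
      simpa using h
    · intro i hi j hj hij
      have hi' : i = 0 ∨ i = 1 := by omega
      have hj' : j = 0 ∨ j = 1 := by omega
      rcases hi' with rfl | rfl <;> rcases hj' with rfl | rfl
      · rfl
      · simp only [if_true, one_ne_zero, if_false] at hij
        exact absurd hij h.ne
      · simp only [if_true, one_ne_zero, if_false] at hij
        exact absurd hij.symm h.ne
      · rfl
    · intro i hi hmem
      have hi' : i = 0 ∨ i = 1 := by omega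
      rcases hi' with rfl | rfl
      · simp only [if_true] at hmem
        exact lt_irrefl _ (hF v hmem).1
      · simp only [one_ne_zero, if_false] at hmem
        exact lt_irrefl _ (hF w hmem).2
  | succ t ih =>
    intro v w h F hF hL
    obtain ⟨hH, hd⟩ := h
    obtain ⟨hvw, hlt, hxX, hxw, hcard⟩ := hH
    have hvx := hX v _ hxX
    have hF' : ∀ z ∈ insert v F, ρ z < ρ (c v w) ∧ ρ z < ρ w := by
      intro z hz
      rcases mem_insert.1 hz with rfl | hz
      · exact ⟨hvx, hlt⟩
      · exact ⟨(hF z hz).1.trans hvx, (hF z hz).2⟩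
    have hL' : (insert v F).card + 3 * t ≤ L := by
      have := card_insert_le v F
      omega
    obtain ⟨g, hg, hg0, hg1, hg2⟩ : ∃ g : ℕ → V, Seq G g (2 * t + 2) ∧ g 0 = c v w ∧
        g (2 * t + 1) = w ∧ ∀ i < 2 * t + 2, g i ∉ insert v F := by
      rcases hd with hd | hd
      · exact ih _ _ hd _ hF' hL'
      · obtain ⟨g, hg, hg0, hg1, hg2⟩ := ih _ _ hd _ (fun z hz => (hF' z hz).symm) hL'
        refine ⟨rv g (2 * t + 2), hg.rv, ?_, ?_, ?_⟩
        · unfold rv
          rw [show 2 * t + 2 - 1 - 0 = 2 * t + 1 by omega]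
          exact hg1
        · unfold rv
          rw [show 2 * t + 2 - 1 - (2 * t + 1) = 0 by omega]
          exact hg0
        · intro i hi
          unfold rv
          exact hg2 _ (by omega)
    obtain ⟨y, hy, hyn⟩ : ∃ y ∈ cell G ρ c v (c v w),
        y ∉ insert v F ∪ (range (2 * t + 2)).image g := by
      by_contra hcon
      push Not at hcon
      have h1 := card_le_card (fun y hy => hcon y hy :
        cell G ρ c v (c v w) ⊆ insert v F ∪ (range (2 * t + 2)).image g)
      have h2 := card_union_le (insert v F) ((range (2 * t + 2)).image g)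
      have h3 : ((range (2 * t + 2)).image g).card ≤ 2 * t + 2 := by
        refine card_image_le.trans ?_
        rw [card_range]
      have h4 := card_insert_le v F
      omega
    obtain ⟨hvy, -, hxy, -⟩ := mem_cell.1 hy
    rw [mem_union, not_or] at hyn
    have hyv : y ≠ v := fun h => hyn.1 (h ▸ mem_insert_self _ _)
    have hyF : y ∉ F := fun h => hyn.1 (mem_insert_of_mem h)
    have hyg : ∀ i < 2 * t + 2, g i ≠ y := fun i hi h =>
      hyn.2 (mem_image.2 ⟨i, mem_range.2 hi, h⟩)
    have s0 : Seq G (fun i => if i = 0 then v else y) 2 := by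
      refine ⟨?_, ?_⟩
      · intro i hi
        have hi0 : i = 0 := by omega
        subst hi0
        simpa using hvy
      · intro i hi j hj hij
        have hi' : i = 0 ∨ i = 1 := by omega
        have hj' : j = 0 ∨ j = 1 := by omega
        rcases hi' with rfl | rfl <;> rcases hj' with rfl | rfl
        · rfl
        · simp only [if_true, one_ne_zero, if_false] at hij
          exact absurd hij.symm hyv
        · simp only [if_true, one_ne_zero, if_false] at hij
          exact absurd hij hyv
        · rfl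
    have s1 := s0.app hg (by omega) (by
      simp only [Nat.add_one_sub_one, one_ne_zero, if_false]
      rw [hg0]
      exact hxy.symm) (by
      intro i hi j hj
      have hi' : i = 0 ∨ i = 1 := by omega
      rcases hi' with rfl | rfl
      · simp only [if_true]
        exact fun h => hg2 j hj (h ▸ mem_insert_self _ _)
      · simp only [one_ne_zero, if_false]
        exact (hyg j hj).symm)
    refine ⟨app (fun i => if i = 0 then v else y) 2 g, ?_, ?_, ?_, ?_⟩
    · rwa [show 2 * (t + 1) + 2 = 2 + (2 * t + 2) by ring]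
    · simp [app]
    · unfold app
      rw [if_neg (by omega), show 2 * (t + 1) + 1 - 2 = 2 * t + 1 by omega]
      exact hg1
    · intro i hi hmem
      unfold app at hmem
      by_cases h2 : i < 2
      · rw [if_pos h2] at hmem
        have hi' : i = 0 ∨ i = 1 := by omega
        rcases hi' with rfl | rfl
        · simp only [if_true] at hmem
          exact lt_irrefl _ (hF v hmem).1
        · simp only [one_ne_zero, if_false] at hmem
          exact hyF hmem
      · rw [if_neg h2] at hmem
        exact hg2 (i - 2) (by omega) (mem_insert_of_mem hmem)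

theorem not_deep {k : ℕ} (hk : 2 ≤ k) (hG : (cycleGraph (2 * k)).Free G)
    (hX : ∀ v, ∀ x ∈ X v, ρ v < ρ x) (hL : 3 * k ≤ L) (v w : V) (hvw : G.Adj v w) :
    ¬ Deep G ρ X c L (k - 1) v w := by
  intro h
  obtain ⟨f, hf, hf0, hf1, -⟩ := path_of_deep hX (k - 1) v w h ∅ (by simp) (by
    rw [card_empty]
    omega)
  rw [show 2 * (k - 1) + 2 = 2 * k by omega] at hf
  refine hG (cycle_of_seq hf (by omega) ?_)
  rw [show 2 * k - 1 = 2 * (k - 1) + 1 by omega, hf1, hf0]
  exact hvw.symm

end

end Pool.Agent.H34D
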