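import Pool.Agent.H34D.Count

/-!
# Removing vertices with covered neighbourhoods one by one
-/

set_option autoImplicit false

namespace Pool.Agent.H34D

open SimpleGraph

/-- `Red G h D K`: one can get from all vertices to `K` by removing vertices one by one, where a
vertex `v` of the current set `T` can be removed if there is a set `X` of at most `h` other vertices
of `T` such that all but at most `D` of the neighbours of `v` in `T` are in `X` or adjacent to a
vertex of `X`. -/
inductive Red {V : Type} (G : SimpleGraph V) (h D : ℕ) : Set V → Prop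
  | univ : Red G h D Set.univ
  | step {T : Set V} {v : V} {X : Set V} : Red G h D T → v ∈ T → X ⊆ T → v ∉ X → X.ncard ≤ h →
      {w : V | w ∈ T ∧ G.Adj v w ∧ w ∉ X ∧ ∀ x ∈ X, ¬ G.Adj x w}.ncard ≤ D → Red G h D (T \ {v})

/-- The order of the removals. -/
theorem Red.rank {V : Type} [Finite V] {G : SimpleGraph V} {h D : ℕ} {K : Set V}
    (hK : Red G h D K) :
    ∃ (m : ℕ) (ρ : V → ℕ) (X : V → Set V), (∀ v, v ∈ K ↔ ρ v = m) ∧ (∀ v, ρ v ≤ m) ∧
      (∀ u v, u ∉ K → ρ u = ρ v → u = v) ∧ (∀ v, ∀ x ∈ X v, ρ v < ρ x) ∧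
      (∀ v, (X v).ncard ≤ h) ∧
      (∀ v, v ∉ K →
        {w : V | ρ v < ρ w ∧ G.Adj v w ∧ w ∉ X v ∧ ∀ x ∈ X v, ¬ G.Adj x w}.ncard ≤ D) := by
  classical
  induction hK with
  | univ =>
    refine ⟨0, fun _ => 0, fun _ => ∅, fun v => by simp, fun v => le_rfl,
      fun u v h => absurd (Set.mem_univ u) h, fun v x h => absurd h (Set.notMem_empty x),
      fun v => by simp, fun v h => absurd (Set.mem_univ v) h⟩
  | @step T v Y hT hv hYT hvY hYh hdom ih =>
    obtain ⟨m, ρ, X, h1, h2, h3, h4, h4', h5⟩ := ih
    refine ⟨m + 1, fun w => if w ∈ T \ {v} then m + 1 else ρ w, Function.update X v Y, ?_, ?_, ?_,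
      ?_, ?_, ?_⟩
    · intro w
      by_cases h : w ∈ T \ {v}
      · simp only [h, if_true]
      · have := h2 w
        simp only [h, if_false, false_iff]
        omega
    · intro w
      have := h2 w
      simp only
      split_ifs <;> omega
    · intro u w hu huw
      have hum := h2 u
      simp only [hu, if_false] at huw
      by_cases hw : w ∈ T \ {v}
      · rw [if_pos hw] at huw
        omega
      · rw [if_neg hw] at huw
        by_cases huT : u ∈ T
        · have huv : u = v := by
            by_contra hne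
            exact hu ⟨huT, hne⟩
          have hwT : w ∈ T := by
            rw [h1, ← huw]
            exact (h1 u).1 huT
          have hwv : w = v := by
            by_contra hne
            exact hw ⟨hwT, hne⟩
          rw [huv, hwv]
        · exact h3 u w huT huw
    · intro w x hx
      have hxm := h2 x
      by_cases hwv : w = v
      · subst hwv
        rw [Function.update_self] at hx
        have h6 : x ∈ T \ {w} := ⟨hYT hx, fun h => hvY (h ▸ hx)⟩
        have h7 : w ∉ T \ {w} := fun h => h.2 rfl
        have := h2 w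
        simp only [if_pos h6, if_neg h7]
        omega
      · rw [Function.update_of_ne hwv] at hx
        have h6 := h4 w x hx
        have h7 : w ∉ T \ {v} := by
          intro h
          have := (h1 w).1 h.1
          omega
        simp only [if_neg h7]
        split_ifs <;> omega
    · intro w
      by_cases hwv : w = v
      · subst hwv
        rw [Function.update_self]
        exact hYh
      · rw [Function.update_of_ne hwv]
        exact h4' w
    · intro w hw
      simp only [hw, if_false]
      by_cases hwT : w ∈ T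
      · have hwv : w = v := by
          by_contra hne
          exact hw ⟨hwT, hne⟩
        subst hwv
        rw [Function.update_self]
        refine le_trans (Set.ncard_le_ncard ?_ (Set.toFinite _)) hdom
        rintro z ⟨hlt, hadj, hzx, hnot⟩
        have hz : z ∈ T \ {w} := by
          by_contra hz
          rw [if_neg hz] at hlt
          have := h2 z
          have := (h1 w).1 hwT
          omega
        exact ⟨hz.1, hadj, hzx, hnot⟩
      · have hwv : w ≠ v := fun h => hwT (h ▸ hv)
        rw [Function.update_of_ne hwv]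
        refine le_trans (Set.ncard_le_ncard ?_ (Set.toFinite _)) (h5 w hwT)
        rintro z ⟨hlt, hadj, hzx, hnot⟩
        refine ⟨?_, hadj, hzx, hnot⟩
        by_cases hz : z ∈ T \ {v}
        · have h6 := (h1 z).1 hz.1
          have h7 := h2 w
          have h8 : ρ w ≠ m := fun h => hwT ((h1 w).2 h)
          omega
        · rwa [if_neg hz] at hlt

/-- One can continue until no neighbourhood is covered. -/
theorem exists_stiff {V : Type} [Finite V] (G : SimpleGraph V) (h D : ℕ) :
    ∃ K : Set V, Red G h D K ∧ ∀ v ∈ K, ∀ X ⊆ K, v ∉ X → X.ncard ≤ h →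
      D < {w : V | w ∈ K ∧ G.Adj v w ∧ w ∉ X ∧ ∀ x ∈ X, ¬ G.Adj x w}.ncard := by
  have key : ∀ (n : ℕ) (T : Set V), T.ncard ≤ n → Red G h D T →
      ∃ K : Set V, Red G h D K ∧ ∀ v ∈ K, ∀ X ⊆ K, v ∉ X → X.ncard ≤ h →
        D < {w : V | w ∈ K ∧ G.Adj v w ∧ w ∉ X ∧ ∀ x ∈ X, ¬ G.Adj x w}.ncard := by
    intro n
    induction n with
    | zero =>
      intro T hT h
      have hT' : T = ∅ := by
        rw [← Set.ncard_eq_zero (Set.toFinite _)]
        omega
      refine ⟨T, h, fun v hv => ?_⟩
      rw [hT'] at hv
      exact absurd hv (Set.notMem_empty v)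
    | succ n ih =>
      intro T hT hR
      by_cases hs : ∀ v ∈ T, ∀ X ⊆ T, v ∉ X → X.ncard ≤ h →
        D < {w : V | w ∈ T ∧ G.Adj v w ∧ w ∉ X ∧ ∀ x ∈ X, ¬ G.Adj x w}.ncard
      · exact ⟨T, hR, hs⟩
      · push Not at hs
        obtain ⟨v, hv, X, hX, hvX, hXh, hle⟩ := hs
        refine ih (T \ {v}) ?_ (Red.step hR hv hX hvX hXh hle)
        rw [Set.ncard_sdiff_singleton_of_mem hv]
        omega
  exact key _ _ le_rfl Red.univ

/-- Edges of an induced subgraph as ordered pairs. -/
theorem pairs_le {V : Type} [Finite V] (G : SimpleGraph V) (K : Set V) (ρ : V → ℕ) :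
    {p : V × V | p.1 ∈ K ∧ p.2 ∈ K ∧ G.Adj p.1 p.2 ∧ ρ p.1 < ρ p.2}.ncard ≤
      (G.induce K).edgeSet.ncard := by
  refine le_trans (Set.ncard_le_ncard_of_injOn (fun p => s(p.1, p.2))
    (t := (Sym2.map Subtype.val) '' (G.induce K).edgeSet) ?_ ?_ (Set.toFinite _))
    (Set.ncard_image_le (Set.toFinite _))
  · rintro ⟨a, b⟩ ⟨ha, hb, hab, -⟩
    exact ⟨s(⟨a, ha⟩, ⟨b, hb⟩), hab, rfl⟩
  · rintro ⟨a, b⟩ ⟨-, -, -, hlt⟩ ⟨c, d⟩ ⟨-, -, -, hlt'⟩ h
    simp only [Sym2.eq_iff] at h
    rcases h with ⟨rfl, rfl⟩ | ⟨rfl, rfl⟩
    · rfl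
    · simp only at hlt hlt'
      omega

theorem red_bound {V : Type} [Finite V] {G : SimpleGraph V} {k : ℕ} (hk : 2 ≤ k)
    (hG : (cycleGraph (2 * k)).Free G) {h D : ℕ} {K : Set V} (hK : Red G h D K) :
    G.edgeSet.ncard ≤ CK k * ((h + D) * Nat.card V + (G.induce K).edgeSet.ncard) := by
  classical
  have := Fintype.ofFinite V
  obtain ⟨m, ρ, X, h1, h2, h3, h4, h4', h5⟩ := hK.rank
  set e : V → ℕ := fun v => (Fintype.equivFin V v : ℕ) with he
  have heinj : Function.Injective e := by
    intro a b hab
    exact (Fintype.equivFin V).injective (Fin.ext hab)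
  set r : V → ℕ := fun v => if v ∈ K then m + e v else ρ v with hr
  have hrK : ∀ v, v ∈ K → r v = m + e v := fun v hv => by rw [hr]; simp only [if_pos hv]
  have hrn : ∀ v, v ∉ K → r v = ρ v ∧ ρ v < m := fun v hv => by
    refine ⟨by rw [hr]; simp only [if_neg hv], lt_of_le_of_ne (h2 v) fun h => hv ((h1 v).2 h)⟩
  have hrinj : Function.Injective r := by
    intro a b hab
    by_cases ha : a ∈ K
    · by_cases hb : b ∈ K
      · rw [hrK a ha, hrK b hb] at hab
        exact heinj (by omega)
      · have := hrn b hb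
        rw [hrK a ha] at hab
        omega
    · by_cases hb : b ∈ K
      · have := hrn a ha
        rw [hrK b hb] at hab
        omega
      · rw [(hrn a ha).1, (hrn b hb).1] at hab
        exact h3 a b ha hab
  have hXr : ∀ v, ∀ x ∈ (X v).toFinset, r v < r x := by
    intro v x hx
    have h6 := h4 v x (Set.mem_toFinset.1 hx)
    have hv : v ∉ K := by
      intro hv
      have := (h1 v).1 hv
      have := h2 x
      omega
    rw [(hrn v hv).1]
    by_cases hxK : x ∈ K
    · rw [hrK x hxK]
      have := (h1 x).1 hxK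
      omega
    · rw [(hrn x hxK).1]
      exact h6
  have hmain := cover_bound hk hG hrinj hXr
  refine (edges_le G hrinj).trans (hmain.trans (Nat.mul_le_mul_left _ ?_))
  have hsum : ∀ v, ((X v).toFinset.card + (exc G r (fun v => (X v).toFinset) v).card) ≤
      (h + D) + (((Finset.univ : Finset (V × V)).filter
        (fun p => p.1 ∈ K ∧ p.2 ∈ K ∧ G.Adj p.1 p.2 ∧ r p.1 < r p.2)).filter
          (fun p => p.1 = v)).card := by
    intro v
    have h6 : (X v).toFinset.card ≤ h := by
      rw [← Set.ncard_eq_toFinset_card']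
      exact h4' v
    by_cases hv : v ∈ K
    · have h7 : (exc G r (fun v => (X v).toFinset) v).card ≤
          (((Finset.univ : Finset (V × V)).filter
        (fun p => p.1 ∈ K ∧ p.2 ∈ K ∧ G.Adj p.1 p.2 ∧ r p.1 < r p.2)).filter
          (fun p => p.1 = v)).card := by
        refine Finset.card_le_card_of_injOn (fun w => (v, w)) ?_ ?_
        · intro w hw
          obtain ⟨h8, h9, -, -⟩ := mem_exc.1 (Finset.mem_coe.1 hw)
          have hw : w ∈ K := by
            by_contra hw
            have := hrn w hw
            rw [hrK v hv] at h8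
            omega
          exact Finset.mem_coe.2 (Finset.mem_filter.2 ⟨Finset.mem_filter.2
            ⟨Finset.mem_univ _, hv, hw, h9, h8⟩, rfl⟩)
        · intro a _ b _ hab
          exact (Prod.mk.injEq _ _ _ _ ▸ hab).2
      omega
    · have h7 : (exc G r (fun v => (X v).toFinset) v).card ≤ D := by
        refine le_trans ?_ (h5 v hv)
        rw [Set.ncard_eq_toFinset_card']
        refine Finset.card_le_card fun w hw => ?_
        obtain ⟨h8, h9, h10, h11⟩ := mem_exc.1 hw
        rw [Set.mem_toFinset]
        refine ⟨?_, h9, fun h => h10 (Set.mem_toFinset.2 h),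
          fun x hx => h11 x (Set.mem_toFinset.2 hx)⟩
        rw [(hrn v hv).1] at h8
        by_cases hw : w ∈ K
        · have := (h1 w).1 hw
          have := (hrn v hv).2
          omega
        · rwa [(hrn w hw).1] at h8
      omega
  refine (Finset.sum_le_sum fun v _ => hsum v).trans ?_
  rw [Finset.sum_add_distrib, Finset.sum_const, Finset.card_univ, smul_eq_mul, mul_comm,
    Nat.card_eq_fintype_card]
  refine Nat.add_le_add_left ?_ _
  rw [← Finset.card_eq_sum_card_fiberwise (f := Prod.fst) (t := (Finset.univ : Finset V))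
    (fun v _ => Finset.mem_coe.2 (Finset.mem_univ _))]
  refine le_trans ?_ (pairs_le G K r)
  rw [Set.ncard_eq_toFinset_card']
  refine Finset.card_le_card fun p hp => ?_
  rw [Set.mem_toFinset]
  exact (Finset.mem_filter.1 hp).2

end Pool.Agent.H34D
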